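import Pool.Agent.H622R2.EdgeStrongRed
import Pool.Agent.NPC.Sat

/-!
# Deciding whether every edge lies in a strong clique is NP-hard

The decision problem EDGE-STRONG (recognition of general partition graphs) has as input a finite
simple graph, given by an adjacency matrix `M : List (List Bool)`; `matGraph M` is the graph.
The question is whether every edge is contained in a clique that meets every maximal stable set.

Reduction from 3SAT: take three disjoint copies of the formula and the conjunctive normal form of
their disjunction.  The vertices are the pairs (clause, literal of the clause), together with one
extra vertex for each ordered pair of opposite literals chosen in different clauses.  The maximal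
stable sets are the clauses and the conflicting pairs with one extra vertex, strong cliques
correspond to satisfying assignments, and the third copy makes every edge extend to one.
-/

namespace Pool.Agent.Results.MP_38a5c8_lc.EdgeStrongNPHard

open Pool.Agent.NPC Pool.Agent.H622R2

/-- EDGE-STRONG is `NP`-hard under polynomial-time many-one reductions. -/
theorem result : NPHardP (fun M : List (List Bool) => EdgeStrong (matGraph M)) :=
  (HardI.trans (Q := fun M : List (List Bool) => EdgeStrong (matGraph M)) hardI_SAT3 esRed_poly
    (fun φ => esRed_correct φ)).toNPHardP

end Pool.Agent.Results.MP_38a5c8_lc.EdgeStrongNPHard
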